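import Pool.Agent.Q8.HC.Main

/-!
# Common hypercyclic vectors for the affine family `aT + bI` on real spaces

For every real topological vector space `X` with a non-zero continuous linear functional, every
continuous linear `T` and every vector `x`, the set of all parameters `(a, b)` for which `x` is
hypercyclic for `aT + bI` has plane Lebesgue measure zero.  In particular no vector is
hypercyclic for all `aT + bI`, `a > 0`, on a real Fréchet space.
-/

universe u

namespace Pool.Agent.Results.MP_e13f12_an.NullParameterSet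

open MeasureTheory

/-- `x` is a hypercyclic vector for `S`: its orbit under `S` is dense. -/
def IsHypercyclicVector {X : Type u} [AddCommGroup X] [Module ℝ X] [TopologicalSpace X]
    (S : X →L[ℝ] X) (x : X) : Prop :=
  Dense (Set.range fun n : ℕ => (S ^ n) x)

/-- `x` is a common hypercyclic vector for the family `F`. -/
def IsCommonHypercyclicVector {X : Type u} [AddCommGroup X] [Module ℝ X] [TopologicalSpace X]
    (F : Set (X →L[ℝ] X)) (x : X) : Prop :=
  ∀ S ∈ F, IsHypercyclicVector S x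

theorem result :
    (∀ (X : Type u) [AddCommGroup X] [Module ℝ X] [UniformSpace X] [IsUniformAddGroup X]
      [ContinuousSMul ℝ X] [LocallyConvexSpace ℝ X] [CompleteSpace X]
      [TopologicalSpace.MetrizableSpace X] [Nontrivial X] (T : X →L[ℝ] X),
      ¬ ∃ x : X, IsCommonHypercyclicVector
        {S | ∃ a b : ℝ, 0 < a ∧ S = a • T + b • ContinuousLinearMap.id ℝ X} x) ∧
    (∀ (X : Type u) [AddCommGroup X] [Module ℝ X] [TopologicalSpace X] [IsTopologicalAddGroup X]
      [ContinuousSMul ℝ X], (∃ f : X →L[ℝ] ℝ, f ≠ 0) → ∀ (T : X →L[ℝ] X) (L : Set (ℝ × ℝ)),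
      (∃ x : X, IsCommonHypercyclicVector
        {S | ∃ p ∈ L, S = p.1 • T + p.2 • ContinuousLinearMap.id ℝ X} x) → volume L = 0) := by
  have main : ∀ (X : Type u) [AddCommGroup X] [Module ℝ X] [TopologicalSpace X]
      [IsTopologicalAddGroup X] [ContinuousSMul ℝ X], (∃ f : X →L[ℝ] ℝ, f ≠ 0) →
      ∀ (T : X →L[ℝ] X) (L : Set (ℝ × ℝ)), (∃ x : X, IsCommonHypercyclicVector
        {S | ∃ p ∈ L, S = p.1 • T + p.2 • ContinuousLinearMap.id ℝ X} x) → volume L = 0 := by
    intro X _ _ _ _ _ hf T L ⟨x, hx⟩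
    refine measure_mono_null ?_ (Q8.HC.null_all T x hf)
    intro p hp
    exact hx _ ⟨p, hp, rfl⟩
  refine ⟨?_, main⟩
  intro X _ _ _ _ _ _ _ _ _ T ⟨x, hx⟩
  obtain ⟨y, hy⟩ := exists_ne (0 : X)
  obtain ⟨f, hf⟩ := SeparatingDual.exists_ne_zero (R := ℝ) hy
  have h0 := main X ⟨f, by rintro rfl; simp at hf⟩ T (Set.Ioo 0 1 ×ˢ Set.Ioo 0 1) ⟨x, by
    rintro S ⟨p, hp, rfl⟩
    exact hx _ ⟨p.1, p.2, hp.1.1, rfl⟩⟩
  rw [Measure.volume_eq_prod, Measure.prod_prod] at h0
  simp at h0

end Pool.Agent.Results.MP_e13f12_an.NullParameterSet
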